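import Pool.Agent.ISB.StmtsB

set_option autoImplicit false

/-!
# Squad ISB, row CVB: fixed points
-/

namespace Pool.Agent.ISB.H19

open Pool.Agent.ISB
open scoped Classical commutatorElement

attribute [local instance 100] LieRing.ofAssociativeRing LieAlgebra.ofAssociativeAlgebra

theorem cvb (hDOP : DopStmt) (hKAS : KasStmt) : CvbStmt := by
  intro P _ F _ _ r κ s hodd hr hs z hz hfix
  obtain ⟨-, -, hadd, -, hone, -, -, -⟩ := hDOP P F
  obtain ⟨-, hK⟩ := hKAS P F κ
  obtain ⟨hcj, -, hpow⟩ := hK s hs
  have hσr := hpow r hr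
  set σ := cj P F s with hσ
  have hcast : (r : F) = 1 := by
    obtain ⟨m, hm⟩ := hodd
    rw [hm]
    push_cast
    rw [CharTwo.two_eq_zero]
    ring
  -- the norm
  set N : Module.End F (Dl P F) →ₗ[F] Module.End F (Dl P F) := ∑ k ∈ Finset.range r, σ ^ k with hN
  have hNa : ∀ T, N T = ∑ k ∈ Finset.range r, (σ ^ k) T := by
    intro T
    rw [hN, LinearMap.sum_apply]
  have hshift : ∀ T, σ (N T) = N T := by
    intro T
    rw [hNa, map_sum]
    have h1 : ∀ k ∈ Finset.range r, σ ((σ ^ k) T) = (σ ^ (k + 1)) T := by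
      intro k _
      rw [pow_succ']
      rfl
    rw [Finset.sum_congr rfl h1]
    have h2 := Finset.sum_range_succ (fun k => (σ ^ k) T) r
    have h3 := Finset.sum_range_succ' (fun k => (σ ^ k) T) r
    rw [h3, hσr] at h2
    have h4 : (σ ^ 0) T = T := rfl
    rw [h4] at h2
    apply LinearMap.ext
    intro f
    have h5 := congrArg (fun L : Module.End F (Dl P F) => L f) h2
    simp only [LinearMap.add_apply] at h5
    exact add_right_cancel h5
  have hR : ∀ T ∈ Rs P F, N T ∈ Rs P F := by
    rintro T ⟨a, x, hx⟩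
    have h1 : ∀ k : ℕ, ∃ y, IsD P F a y ((σ ^ k) T) := by
      intro k
      induction k with
      | zero => exact ⟨x, hx⟩
      | succ k ih =>
        obtain ⟨y, hy⟩ := ih
        refine ⟨κ y, ?_⟩
        have h2 := hcj a y _ hy
        rw [pow_succ']
        exact h2
    have h2 : ∀ m : ℕ, ∃ y, IsD P F a y (∑ k ∈ Finset.range m, (σ ^ k) T) := by
      intro m
      induction m with
      | zero =>
        refine ⟨1, ?_⟩
        rw [Finset.sum_range_zero]
        exact hone a
      | succ m ih =>
        obtain ⟨y, hy⟩ := ih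
        obtain ⟨y', hy'⟩ := h1 m
        refine ⟨y * y', ?_⟩
        rw [Finset.sum_range_succ]
        exact hadd a y y' _ _ hy hy'
    obtain ⟨y, hy⟩ := h2 r
    refine ⟨a, y, ?_⟩
    rw [hNa]
    exact hy
  have hspan : ∀ w ∈ Submodule.span F (Rs P F),
      N w ∈ Submodule.span F {c | c ∈ Rs P F ∧ σ c = c} := by
    intro w hw
    induction hw using Submodule.span_induction with
    | mem T hT => exact Submodule.subset_span ⟨hR T hT, hshift T⟩
    | zero =>
      rw [map_zero]
      exact Submodule.zero_mem _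
    | add u v _ _ hu hv =>
      rw [map_add]
      exact Submodule.add_mem _ hu hv
    | smul c u _ hu =>
      rw [map_smul]
      exact Submodule.smul_mem _ c hu
  have hz2 : N z = z := by
    rw [hNa]
    have h0 : ∀ k : ℕ, (σ ^ k) z = z := by
      intro k
      induction k with
      | zero => rfl
      | succ k ih =>
        rw [pow_succ']
        show σ ((σ ^ k) z) = z
        rw [ih, hfix]
    have h1 : ∀ k ∈ Finset.range r, (σ ^ k) z = z := fun k _ => h0 k
    rw [Finset.sum_congr rfl h1, Finset.sum_const, Finset.card_range, ← Nat.cast_smul_eq_nsmul F,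
      hcast, one_smul]
  rw [← hz2]
  exact hspan z hz

end Pool.Agent.ISB.H19
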