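import Pool.Agent.ISB.StmtsB

set_option autoImplicit false

/-!
# Squad ISB, row KAS: the automorphisms of the dual
-/

namespace Pool.Agent.ISB.H19

open Pool.Agent.ISB
open scoped Classical commutatorElement

attribute [local instance 100] LieRing.ofAssociativeRing LieAlgebra.ofAssociativeAlgebra

/-- `f j (κ g)` is again in the dual -/
lemma comp_mem (hGMC : GmcStmt) {P : Type} [Group P] {F : Type} [Field F] (κ : P ≃* P)
    (f : Dl P F) : (fun j g => (f : ℕ → P → F) j (κ g)) ∈ Dl P F := by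
  obtain ⟨-, -, -, hκ, -⟩ := hGMC P
  intro j
  obtain ⟨h1, h2, h3⟩ := f.2 j
  refine ⟨fun x hx y hy => ?_, fun x hx => ?_, fun x hx => ?_⟩
  · show (f : ℕ → P → F) j (κ (x * y)) = (f : ℕ → P → F) j (κ x) + (f : ℕ → P → F) j (κ y)
    rw [map_mul]
    exact h1 _ (hκ κ j x hx) _ (hκ κ j y hy)
  · exact h2 _ (hκ κ (j + 1) x hx)
  · refine h3 _ ?_
    intro h
    apply hx
    have h4 := hκ κ.symm j _ h
    rwa [MulEquiv.symm_apply_apply] at h4

lemma exists_K (hGMC : GmcStmt) {P : Type} [Group P] {F : Type} [Field F] (κ : P ≃* P) :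
    ∃ s : Dl P F ≃ₗ[F] Dl P F, IsK P F κ s := by
  refine ⟨{ toFun := fun f => ⟨_, comp_mem hGMC κ.symm f⟩
            invFun := fun f => ⟨_, comp_mem hGMC κ f⟩
            map_add' := fun f g => rfl
            map_smul' := fun c f => rfl
            left_inv := ?_
            right_inv := ?_ }, ?_⟩
  · intro f
    apply Subtype.ext
    funext j g
    show (f : ℕ → P → F) j (κ.symm (κ g)) = (f : ℕ → P → F) j g
    rw [MulEquiv.symm_apply_apply]
  · intro f
    apply Subtype.ext
    funext j g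
    show (f : ℕ → P → F) j (κ (κ.symm g)) = (f : ℕ → P → F) j g
    rw [MulEquiv.apply_symm_apply]
  · intro f j g
    rfl

lemma symm_apply' {P : Type} [Group P] {F : Type} [Field F] {κ : P ≃* P}
    {s : Dl P F ≃ₗ[F] Dl P F} (hs : IsK P F κ s) (f : Dl P F) (j : ℕ) (g : P) :
    ((s.symm f : Dl P F) : ℕ → P → F) j g = (f : ℕ → P → F) j (κ g) := by
  have h := hs (s.symm f) j (κ g)
  rw [LinearEquiv.apply_symm_apply, MulEquiv.symm_apply_apply] at h
  exact h.symm

lemma cj_apply {P : Type} [Group P] {F : Type} [Field F] (s : Dl P F ≃ₗ[F] Dl P F)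
    (T : Module.End F (Dl P F)) (f : Dl P F) : cj P F s T f = s (T (s.symm f)) := rfl

lemma isD_cj (hGMC : GmcStmt) {P : Type} [Group P] {F : Type} [Field F] {κ : P ≃* P}
    {s : Dl P F ≃ₗ[F] Dl P F} (hs : IsK P F κ s) {a : ℕ} {x : P} {T : Module.End F (Dl P F)}
    (h : IsD P F a x T) : IsD P F a (κ x) (cj P F s T) := by
  obtain ⟨-, -, -, hκ, -⟩ := hGMC P
  refine ⟨hκ κ a x h.1, ?_⟩
  intro f
  funext j g
  rw [cj_apply, hs, h.2 (s.symm f)]
  show (if κ.symm g ∈ gm P j then
      ((s.symm f : Dl P F) : ℕ → P → F) (j + a + 1) ⁅x, κ.symm g⁆ else 0) =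
    if g ∈ gm P j then (f : ℕ → P → F) (j + a + 1) ⁅κ x, g⁆ else 0
  have hiff : κ.symm g ∈ gm P j ↔ g ∈ gm P j := by
    constructor
    · intro h4
      have h5 := hκ κ j _ h4
      rwa [MulEquiv.apply_symm_apply] at h5
    · intro h4
      exact hκ κ.symm j _ h4
  by_cases hg : g ∈ gm P j
  · rw [if_pos (hiff.mpr hg), if_pos hg, symm_apply' hs, map_commutatorElement,
      MulEquiv.apply_symm_apply]
  · rw [if_neg (fun h4 => hg (hiff.mp h4)), if_neg hg]

lemma cj_lie {P : Type} [Group P] {F : Type} [Field F] (s : Dl P F ≃ₗ[F] Dl P F)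
    (T U : Module.End F (Dl P F)) : cj P F s ⁅T, U⁆ = ⁅cj P F s T, cj P F s U⁆ := by
  show cj P F s (T * U - U * T) = cj P F s T * cj P F s U - cj P F s U * cj P F s T
  apply LinearMap.ext
  intro f
  show s (T (U (s.symm f)) - U (T (s.symm f))) =
    s (T (s.symm (s (U (s.symm f))))) - s (U (s.symm (s (T (s.symm f)))))
  rw [LinearEquiv.symm_apply_apply, LinearEquiv.symm_apply_apply, map_sub]

lemma iter_cj {P : Type} [Group P] {F : Type} [Field F] (s : Dl P F ≃ₗ[F] Dl P F)
    (T : Module.End F (Dl P F)) (r : ℕ) (f : Dl P F) :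
    ((cj P F s)^[r] T) f = s^[r] (T (s.symm^[r] f)) := by
  induction r generalizing f with
  | zero => rfl
  | succ r ih =>
    rw [Function.iterate_succ_apply', Function.iterate_succ_apply', cj_apply, ih,
      Function.iterate_succ_apply]

lemma iter_s {P : Type} [Group P] {F : Type} [Field F] {κ : P ≃* P}
    {s : Dl P F ≃ₗ[F] Dl P F} (hs : IsK P F κ s) (r : ℕ) (f : Dl P F) (j : ℕ) (g : P) :
    ((s^[r] f : Dl P F) : ℕ → P → F) j g = (f : ℕ → P → F) j (κ.symm^[r] g) := by
  induction r generalizing f g with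
  | zero => rfl
  | succ r ih =>
    rw [Function.iterate_succ_apply', hs, ih, Function.iterate_succ_apply]

lemma iter_symm {P : Type} [Group P] {F : Type} [Field F] {κ : P ≃* P}
    {s : Dl P F ≃ₗ[F] Dl P F} (hs : IsK P F κ s) (r : ℕ) (f : Dl P F) (j : ℕ) (g : P) :
    ((s.symm^[r] f : Dl P F) : ℕ → P → F) j g = (f : ℕ → P → F) j (κ^[r] g) := by
  induction r generalizing f g with
  | zero => rfl
  | succ r ih =>
    rw [Function.iterate_succ_apply', symm_apply' hs, ih, Function.iterate_succ_apply]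

lemma pow_iter {P : Type} [Group P] (κ : MulAut P) (r : ℕ) (g : P) : (κ ^ r) g = κ^[r] g := by
  induction r with
  | zero => rfl
  | succ r ih =>
    rw [pow_succ', Function.iterate_succ_apply', ← ih]
    rfl

theorem kas (hGMC : GmcStmt) : KasStmt := by
  intro P _ F _ _ κ
  refine ⟨exists_K hGMC κ, ?_⟩
  intro s hs
  refine ⟨fun a x T h => isD_cj hGMC hs h, fun T U => cj_lie s T U, ?_⟩
  intro r hr T
  have h1 : ∀ g : P, κ^[r] g = g := fun g => by rw [← pow_iter, hr]
  have h2 : ∀ g : P, κ.symm^[r] g = g := by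
    intro g
    have h3 : κ^[r] (κ.symm^[r] g) = g :=
      (Function.LeftInverse.iterate (fun y => κ.apply_symm_apply y) r) g
    rw [h1] at h3
    exact h3
  have h4 : ∀ f : Dl P F, s^[r] f = f := by
    intro f
    apply Subtype.ext
    funext j g
    rw [iter_s hs, h2]
  have h5 : ∀ f : Dl P F, s.symm^[r] f = f := by
    intro f
    apply Subtype.ext
    funext j g
    rw [iter_symm hs, h1]
  rw [Module.End.pow_apply]
  apply LinearMap.ext
  intro f
  rw [iter_cj, h4, h5]

end Pool.Agent.ISB.H19
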